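import Pool.Agent.Helper93.HH.FDefs

/-!
# HH-EX: exits of the cells
-/

set_option linter.unusedSectionVars false
set_option linter.unusedVariables false

open Set
open Pool.Agent.Helper83.OP
open Pool.Agent.Helper43.HH
open Pool.Agent.Helper93.HH Pool.Agent.Helper93.HH.HD

namespace Pool.Agent.Helper66.HH

/-- ancestors have the same centre -/
theorem anc_ctr {V : Type} {par : V → V} {dep : V → ℕ} {ctr : V → V}
    (hd : ∀ v, dep v ≠ 0 → dep (par v) + 1 = dep v)
    (hc : ∀ v, dep v ≠ 0 → ctr (par v) = ctr v) {u v : V} (h : Anc par dep u v) :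
    ctr u = ctr v := by
  have key : ∀ k, k ≤ dep v → ctr (par^[k] v) = ctr v := by
    intro k
    induction k with
    | zero => intro _; rfl
    | succ k ih =>
      intro hk
      have h1 := iter_dep hd v k (by omega)
      rw [Function.iterate_succ_apply', hc _ (by omega)]
      exact ih (by omega)
  have h2 := key (dep v - dep u) (Nat.sub_le _ _)
  rwa [h.2] at h2

/-- the path in the tree between two vertices with the same root -/
theorem tree_path {V : Type} {N : SimpleGraph V} {par : V → V} {dep : V → ℕ} {ctr : V → V}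
    (hd : ∀ v, dep v ≠ 0 → dep (par v) + 1 = dep v)
    (hadj : ∀ v, dep v ≠ 0 → N.Adj v (par v))
    (hc : ∀ v, dep v ≠ 0 → ctr (par v) = ctr v) (h0 : ∀ v, dep v = 0 → ctr v = v) :
    ∀ (n : ℕ) (u v : V), dep u + dep v = n → ctr u = ctr v →
    ∃ (p : N.Walk u v) (m : V), p.IsPath ∧ m ∈ p.support ∧
      p.length + 2 * dep m = dep u + dep v ∧
      ∀ z ∈ p.support, Anc par dep z u ∨ Anc par dep z v := by
  intro n
  induction n with
  | zero =>
    intro u v hn huv
    have h1 : u = v := by rw [← h0 u (by omega), ← h0 v (by omega), huv]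
    subst h1
    refine ⟨SimpleGraph.Walk.nil, u, SimpleGraph.Walk.IsPath.nil, by simp, by simp; omega, ?_⟩
    intro z hz
    rw [SimpleGraph.Walk.support_nil, List.mem_singleton] at hz
    subst hz
    exact Or.inl (Anc.refl _)
  | succ n ih =>
    intro u v hn huv
    by_cases hle : dep v ≤ dep u
    · by_cases he : u = v
      · subst he
        refine ⟨SimpleGraph.Walk.nil, u, SimpleGraph.Walk.IsPath.nil, by simp, by simp; omega, ?_⟩
        intro z hz
        rw [SimpleGraph.Walk.support_nil, List.mem_singleton] at hz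
        subst hz
        exact Or.inl (Anc.refl _)
      have hu : dep u ≠ 0 := by omega
      have h1 := hd u hu
      have ha : Anc par dep (par u) u := by
        have := anc_iter hd u 1 (by omega)
        simpa using this
      obtain ⟨p, m, hp, hm, hl, hs⟩ := ih (par u) v (by omega) (by rw [hc u hu, huv])
      have hnot : u ∉ p.support := by
        intro h
        rcases hs u h with h2 | h2
        · have := h2.1
          omega
        · have := h2.1
          exact he (h2.eq (by omega))
      refine ⟨SimpleGraph.Walk.cons (hadj u hu) p, m, hp.cons hnot, ?_, ?_, ?_⟩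
      · rw [SimpleGraph.Walk.support_cons]
        exact List.mem_cons_of_mem _ hm
      · rw [SimpleGraph.Walk.length_cons]
        omega
      · intro z hz
        rw [SimpleGraph.Walk.support_cons, List.mem_cons] at hz
        rcases hz with rfl | hz
        · exact Or.inl (Anc.refl _)
        · rcases hs z hz with h2 | h2
          · exact Or.inl (h2.trans ha)
          · exact Or.inr h2
    · have hv : dep v ≠ 0 := by omega
      have h1 := hd v hv
      have ha : Anc par dep (par v) v := by
        have := anc_iter hd v 1 (by omega)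
        simpa using this
      obtain ⟨p, m, hp, hm, hl, hs⟩ := ih u (par v) (by omega) (by rw [hc v hv, huv])
      have hnot : v ∉ p.support := by
        intro h
        rcases hs v h with h2 | h2
        · have := h2.1
          omega
        · have := h2.1
          omega
      refine ⟨p.concat (hadj v hv).symm, m, hp.concat hnot _, ?_, ?_, ?_⟩
      · rw [SimpleGraph.Walk.support_concat]
        exact List.mem_append_left _ hm
      · rw [SimpleGraph.Walk.length_concat]
        omega
      · intro z hz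
        rw [SimpleGraph.Walk.support_concat, List.mem_append, List.mem_singleton] at hz
        rcases hz with hz | rfl
        · rcases hs z hz with h2 | h2
          · exact Or.inl h2
          · exact Or.inr (h2.trans ha)
        · exact Or.inr (Anc.refl _)

section

variable {V P Q : Type} [Finite V] [Finite P] [Finite Q] {D : HD V P Q} {K : ℕ}

/-- the distance to the centre -/
theorem nr_ctr {C : Set V} {ra : V → ℕ} (E : Cel D C ra) :
    ∀ v, Nr D.N (E.dep v) v (E.ctr v) := by
  have key : ∀ n v, E.dep v = n → Nr D.N n v (E.ctr v) := by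
    intro n
    induction n with
    | zero =>
      intro v hv
      rw [(E.dep_zero v).1 hv]
      exact Nr.refl _ _ _
    | succ n ih =>
      intro v hv
      have h0 : E.dep v ≠ 0 := by omega
      have h1 := E.par_dep v h0
      have h2 := ih (E.par v) (by omega)
      rw [E.par_ctr v h0] at h2
      have h3 := (Nr.of_adj (E.par_adj v h0)).trans h2
      rwa [Nat.add_comm 1 n] at h3
  exact fun v => key _ v rfl

private theorem sc_step (S : Sys D K) {u w : V} (h : D.N.Adj u w) : S.E.sc w ≤ S.E.sc u + 1 := by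
  have h1 : Nr D.N (1 + S.E.dep u) w (S.E.ctr u) := (Nr.of_adj h.symm).trans (nr_ctr S.E u)
  have h2 := S.E.score w (VN_of_adj' h) _ (S.E.ctr_mem u (VN_of_adj h)) _ h1
  unfold Cel.sc
  push_cast at h2
  linarith

/-- the vertex entered by an exit: its score -/
theorem exit_sc (hD : D.Ok) (S : Sys D K) {u w : V} (h : D.N.Adj u w) :
    S.E.sc w ≤ S.E.sc u + 1 ∧ S.E.sc u ≤ S.E.sc w + 1 :=
  ⟨sc_step S h, sc_step S h.symm⟩

/-- two cells are joined by at most one edge -/
theorem exit_uniq (hD : D.Ok) (S : Sys D K) (hK : 10 ≤ K) {c u w u' w' : V}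
    (h : Exit S c u w) (h' : Exit S c u' w') (hw : S.E.ctr w = S.E.ctr w') : u = u' ∧ w = w' := by
  obtain ⟨h1, h2, h3⟩ := h
  obtain ⟨h1', h2', h3'⟩ := h'
  have h0 : ∀ v, S.E.dep v = 0 → S.E.ctr v = v := fun v hv => (S.E.dep_zero v).1 hv
  obtain ⟨p, m, hp, hm, hl, hs⟩ := tree_path (N := D.N) S.E.par_dep S.E.par_adj S.E.par_ctr h0 _
    u u' rfl (by rw [h1, h1'])
  obtain ⟨q, m', hq, hm', hl', hs'⟩ := tree_path (N := D.N) S.E.par_dep S.E.par_adj S.E.par_ctr h0
    _ w' w rfl hw.symm
  have hpc : ∀ z ∈ p.support, S.E.ctr z = c := by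
    intro z hz
    rcases hs z hz with h4 | h4
    · rw [anc_ctr S.E.par_dep S.E.par_ctr h4, h1]
    · rw [anc_ctr S.E.par_dep S.E.par_ctr h4, h1']
  have hqc : ∀ z ∈ q.support, S.E.ctr z = S.E.ctr w := by
    intro z hz
    rcases hs' z hz with h4 | h4
    · rw [anc_ctr S.E.par_dep S.E.par_ctr h4, hw]
    · exact anc_ctr S.E.par_dep S.E.par_ctr h4
  by_contra hcon
  have hR : (p.append (SimpleGraph.Walk.cons h3' q)).IsPath := by
    rw [SimpleGraph.Walk.isPath_def, SimpleGraph.Walk.support_append,
      SimpleGraph.Walk.support_cons, List.tail_cons]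
    refine List.Nodup.append hp.support_nodup hq.support_nodup ?_
    intro z hz hz'
    exact h2 (by rw [← hqc z hz', hpc z hz])
  have hC : (SimpleGraph.Walk.cons h3.symm (p.append (SimpleGraph.Walk.cons h3' q))).IsCycle := by
    rw [SimpleGraph.Walk.cons_isCycle_iff]
    refine ⟨hR, ?_⟩
    rw [SimpleGraph.Walk.edges_append, SimpleGraph.Walk.edges_cons, List.mem_append,
      List.mem_cons]
    rintro (h4 | h4 | h4)
    · exact h2 (hpc _ (p.fst_mem_support_of_mem_edges h4))
    · rcases Sym2.eq_iff.1 h4 with ⟨h5, h6⟩ | ⟨h5, h6⟩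
      · exact h2 (by rw [h5, h1'])
      · exact hcon ⟨h6, h5⟩
    · apply h2
      rw [← hqc _ (q.snd_mem_support_of_mem_edges h4), h1]
  have hlen : (SimpleGraph.Walk.cons h3.symm (p.append (SimpleGraph.Walk.cons h3' q))).length =
      p.length + q.length + 2 := by
    rw [SimpleGraph.Walk.length_cons, SimpleGraph.Walk.length_append,
      SimpleGraph.Walk.length_cons]
    omega
  have key : ∀ y ∈ p.support ++ q.support,
      10 * (|S.E.sc y| + 2) < (p.length : ℤ) + q.length + 2 := by
    intro y hy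
    have h4 := S.sparse _ _ hC y (by
      rw [SimpleGraph.Walk.support_cons, SimpleGraph.Walk.support_append,
        SimpleGraph.Walk.support_cons, List.tail_cons]
      exact List.mem_cons_of_mem _ hy)
    rw [hlen] at h4
    have h5 : (0 : ℤ) ≤ |S.E.sc y| := abs_nonneg _
    have h6 : (2 : ℤ) ≤ D.L := by
      have := hD.r_pos
      have := hD.r_le
      omega
    have h7 : (10 : ℤ) ≤ K := by exact_mod_cast hK
    push_cast at h4
    nlinarith
  have kp : ∀ y ∈ p.support, 10 * (|S.E.sc y| + 2) < (p.length : ℤ) + q.length + 2 :=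
    fun y hy => key y (List.mem_append_left _ hy)
  have kq : ∀ y ∈ q.support, 10 * (|S.E.sc y| + 2) < (p.length : ℤ) + q.length + 2 :=
    fun y hy => key y (List.mem_append_right _ hy)
  have a1 := kp u p.start_mem_support
  have a2 := kp u' p.end_mem_support
  have a3 := kp m hm
  have b1 := kq w' q.start_mem_support
  have b2 := kq w q.end_mem_support
  have b3 := kq m' hm'
  have c1 : S.E.sc u = (S.E.dep u : ℤ) - S.ra c := by rw [Cel.sc, h1]
  have c2 : S.E.sc u' = (S.E.dep u' : ℤ) - S.ra c := by rw [Cel.sc, h1']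
  have c3 : S.E.sc m = (S.E.dep m : ℤ) - S.ra c := by rw [Cel.sc, hpc m hm]
  have d1 : S.E.sc w' = (S.E.dep w' : ℤ) - S.ra (S.E.ctr w) := by rw [Cel.sc, hw]
  have d2 : S.E.sc w = (S.E.dep w : ℤ) - S.ra (S.E.ctr w) := rfl
  have d3 : S.E.sc m' = (S.E.dep m' : ℤ) - S.ra (S.E.ctr w) := by rw [Cel.sc, hqc m' hm']
  have e1 := le_abs_self (S.E.sc u)
  have e2 := le_abs_self (S.E.sc u')
  have e3 := neg_abs_le (S.E.sc m)
  have f1 := le_abs_self (S.E.sc w')
  have f2 := le_abs_self (S.E.sc w)
  have f3 := neg_abs_le (S.E.sc m')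
  have g1 : (p.length : ℤ) + 2 * S.E.dep m = S.E.dep u + S.E.dep u' := by exact_mod_cast hl
  have g2 : (q.length : ℤ) + 2 * S.E.dep m' = S.E.dep w' + S.E.dep w := by exact_mod_cast hl'
  linarith

private theorem x_ctr (S : Sys D K) {p : P} (hp : p ∉ S.Bd) : S.E.ctr (D.x p) = D.x p :=
  S.E.ctr_C _ (Or.inr ⟨p, hp, rfl⟩)

private theorem exit_near (S : Sys D K) {p : P} (hp : p ∉ S.Bd) {u w : V}
    (h : Exit S (D.x p) u w) :
    (S.E.dep w : ℤ) ≤ S.E.dep u + 1 + S.ra (S.E.ctr w) ∧
    Nr D.N (S.E.dep u + 1 + S.E.dep w) (D.x p) (S.E.ctr w) := by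
  obtain ⟨h1, h2, h3⟩ := h
  constructor
  · have h4 := sc_step S h3
    unfold Cel.sc at h4
    rw [h1, S.ra_x p hp] at h4
    push_cast at h4
    linarith
  · have h4 := nr_ctr S.E u
    rw [h1] at h4
    exact (h4.symm.trans (Nr.of_adj h3)).trans (nr_ctr S.E w)

/-- the depth of the allowed exits of a good pin -/
theorem exit_dep (hD : D.Ok) (S : Sys D K) (hK : 10 ^ 4 ≤ K) (hN : D.NoPl K) (p : P) (hp : p ∉ S.Bd)
    (hs : 0 < D.sg (D.x p)) {u w : V} (h : Al S p u w) (hd : ¬ Drop S u w) :
    D.sg (D.x p) ≤ 300 * (S.E.dep u + 1) ∧ D.sg (S.E.ctr w) ≤ 400 * (S.E.dep u + 1) := by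
  obtain ⟨hE, hA, hA'⟩ := h
  obtain ⟨n1, n2⟩ := exit_near S hp hE
  have hC := S.E.ctr_mem w (VN_of_adj' hE.2.2)
  have n3 := D.sg_lip n2.symm
  by_cases hZ : S.E.ctr w ∈ S.Z
  · have h1 : 10 * D.Rv (S.E.ctr w) ≤ S.E.dep u := by
      by_contra hcon
      exact hd ⟨hZ, by omega⟩
    rw [S.ra_Z _ hZ] at n1
    have n4 := D.Rv_lip n2
    have h2 : ¬ D.Thick (D.x p) := fun ht => hp (S.bd_thick p ht)
    unfold HD.Thick at h2
    omega
  · rcases hC with hC | ⟨p', hp', hx⟩
    · exact absurd hC hZ
    rw [← hx, S.ra_x p' hp'] at n1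
    have hne : p' ≠ p := by
      rintro rfl
      exact hE.2.1 hx.symm
    have hnr : Nr D.N (2 * (S.E.dep u + 1)) (D.x p) (D.x p') := by
      rw [hx]
      exact n2.mono (by omega)
    have h1 : D.gp p ≤ 2 * (S.E.dep u + 1) := D.gp_le_of hne hnr
    have key : D.sg (D.x p) ≤ 8 * (S.E.dep u + 1) := by
      by_contra hcon
      have h4 : 4 * D.gp p < D.sg (D.x p) := by omega
      have hcard := D.sg_le_card (D.x p)
      have hex := D.gp_spec (p := p) (by omega)
      have hpt : D.pt p ≠ p ∧ Nr D.N (D.gp p) (D.x p) (D.x (D.pt p)) := by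
        unfold HD.pt
        rw [dif_pos hex]
        exact hex.choose_spec
      by_cases hc : S.E.ctr w = S.E.ctr (D.x (D.pt p))
      · by_cases hu : S.E.dep u = 0
        · -- `u = x p`
          have h5 : u = D.x p := by rw [← hE.1]; exact ((S.E.dep_zero u).1 hu).symm
          apply hA
          refine ⟨h4, ?_, Or.inl ⟨hc, hE.2.1⟩⟩
          rw [← h5]
          exact hE.2.2
        · -- the first vertex of the branch
          have h5 : Anc S.E.par S.E.dep (S.E.par^[S.E.dep u - 1] u) u :=
            anc_iter S.E.par_dep u _ (by omega)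
          have h6 := iter_dep S.E.par_dep u (S.E.dep u - 1) (by omega)
          set z := S.E.par^[S.E.dep u - 1] u with hz
          have h7 : S.E.dep z ≠ 0 := by omega
          have h8 : S.E.ctr z = D.x p := by
            rw [anc_ctr S.E.par_dep S.E.par_ctr h5, hE.1]
          have h9 := S.E.par_dep z h7
          have h10 : S.E.par z = D.x p := by
            rw [← h8, ← S.E.par_ctr z h7]
            exact ((S.E.dep_zero _).1 (by omega)).symm
          refine hA' z ⟨h4, ?_, Or.inr ⟨h8, u, w, h5, hE, hc⟩⟩ h5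
          rw [← h10]
          exact (S.E.par_adj z h7).symm
      · have h5 : p' ≠ D.pt p := by
          rintro rfl
          apply hc
          rw [x_ctr S hp', ← hx]
        have h6 := D.sg_three (y := D.x p) (t := 2 * (S.E.dep u + 1)) hpt.1.symm hne.symm h5.symm
          (Nr.refl _ _ _) (hpt.2.mono h1) hnr
        omega
    have h2 : D.sg (D.x p') ≤ D.sg (D.x p) + 2 * (S.E.dep u + 1) := D.sg_lip hnr.symm
    rw [← hx]
    omega

/-- dropped exits: at most two pins for every thick cell -/
theorem drop_count (hD : D.Ok) (S : Sys D K) (hK : 10 ≤ K) (z : V) (hz : z ∈ S.Z) :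
    {p | p ∉ S.Bd ∧ ∃ u w, Exit S (D.x p) u w ∧ S.E.ctr w = z ∧ Drop S u w}.ncard ≤ 2 := by
  have h1 : 21 * D.Rv z < D.sg z := by
    have h2 := S.Z_thick z hz
    unfold HD.Thick at h2
    have h3 := Rv_pos D hD (VN_U hD (S.Z_VN z hz))
    omega
  refine (Set.ncard_le_ncard ?_ (Set.toFinite _)).trans (D.sg_min h1)
  rintro p ⟨hp, u, w, hE, hw, hdr⟩
  obtain ⟨n1, n2⟩ := exit_near S hp hE
  rw [hw, S.ra_Z z hz] at n1
  have h2 := hdr.2
  rw [hw] at h2 n2
  exact n2.symm.mono (by omega)

end

end Pool.Agent.Helper66.HH
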